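import Mathlib

/-!
# Thomassé's conjecture fails for every pair (order, degree) in its range with `n ≠ 3k+1`

For `a, r ≥ 1` put `k = a + r` and `n = 3a + 4r + 1 = 3k + 1 + r`.  The Cayley digraph of the
integers modulo `n` with connection set `{1, 2, ..., a} ∪ {a+2, a+4, ..., a+2r}` has no directed
cycle of length at most three, is maximal with this property, has no homogeneous set and has all
indegrees and outdegrees equal to `k`.  These are all the pairs `(n, k)` with `3k+1 < n ≤ 4k`, and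
they contain all the pairs with `4n/15 < k` and `3k + 1 < n`.
-/

namespace Pool.Agent.Results.MP_ba12ad_co.AllPairs

/-- A digraph on the vertex set `V`, given by its arc relation. -/
abbrev Arcs (V : Type) := V → V → Prop

/-- No loops, no directed 2-cycle and no directed triangle. -/
def ShortCycleFree {V : Type} (A : Arcs V) : Prop :=
  (∀ u, ¬ A u u) ∧ (∀ u v, ¬ (A u v ∧ A v u)) ∧ (∀ u v w, ¬ (A u v ∧ A v w ∧ A w u))

/-- The digraph obtained from `A` by adding the arc from `u` to `v`. -/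
def addArc {V : Type} (A : Arcs V) (u v : V) : Arcs V :=
  fun x y => A x y ∨ (x = u ∧ y = v)

/-- `A` has no directed cycle of length at most three, and adding any absent arc creates one. -/
def IsMaximalFree {V : Type} (A : Arcs V) : Prop :=
  ShortCycleFree A ∧ ∀ u v, u ≠ v → ¬ A u v → ¬ ShortCycleFree (addArc A u v)

/-- `X` is a homogeneous set of `A`: it has at least two elements, is not the whole vertex set, and
every vertex outside `X` sends an arc to every vertex of `X`, or receives an arc from every vertex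
of `X`, or is adjacent to no vertex of `X`. -/
def IsHomogeneous {V : Type} (A : Arcs V) (X : Finset V) : Prop :=
  2 ≤ X.card ∧ (∃ w, w ∉ X) ∧
    ∀ w, w ∉ X → (∀ x ∈ X, A w x) ∨ (∀ x ∈ X, A x w) ∨ (∀ x ∈ X, ¬ A w x ∧ ¬ A x w)

/-- The outdegree of `v` in `A`. -/
noncomputable def outdeg {V : Type} (A : Arcs V) (v : V) : ℕ := {w | A v w}.ncard

/-- The indegree of `v` in `A`. -/
noncomputable def indeg {V : Type} (A : Arcs V) (v : V) : ℕ := {w | A w v}.ncard

/-- The circular interval digraph on the integers modulo `3m+1`: `i` points to `i+1,...,i+m`. -/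
def circular (m : ℕ) : Arcs (ZMod (3 * m + 1)) :=
  fun i j => ∃ t : ℕ, 1 ≤ t ∧ t ≤ m ∧ j = i + (t : ZMod (3 * m + 1))

/-- `A` is a digraph on the integers modulo `n` that has no directed cycle of length at most three,
is maximal with this property, has no homogeneous set, has all indegrees and outdegrees equal to
`k`, has a vertex-transitive automorphism group and is not isomorphic to any circular interval
digraph. -/
structure Counterexample (n k : ℕ) (A : Arcs (ZMod n)) : Prop where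
  /-- `A` is maximal without directed cycles of length at most three. -/
  maximal : IsMaximalFree A
  /-- `A` has no homogeneous set. -/
  nohom : ∀ X : Finset (ZMod n), ¬ IsHomogeneous A X
  /-- all indegrees and outdegrees are equal to `k`. -/
  regular : ∀ v, outdeg A v = k ∧ indeg A v = k
  /-- the automorphism group is transitive on the vertices. -/
  transitive : ∀ u v, ∃ e : ZMod n ≃ ZMod n, e u = v ∧ ∀ i j, A i j ↔ A (e i) (e j)
  /-- `A` is not isomorphic to a circular interval digraph. -/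
  notCircular : ∀ m : ℕ, ¬ ∃ e : ZMod n ≃ ZMod (3 * m + 1),
    ∀ i j, A i j ↔ circular m (e i) (e j)

/-- Membership in the connection set `{1, ..., a} ∪ {a+2, a+4, ..., a+2r}`. -/
def Conn (a r s : ℕ) : Prop := 1 ≤ s ∧ s ≤ a + 2 * r ∧ (s ≤ a ∨ (s + a) % 2 = 0)

/-- The Cayley digraph of the integers modulo `3a+4r+1` with connection set
`{1, ..., a} ∪ {a+2, a+4, ..., a+2r}`. -/
def G (a r : ℕ) : Arcs (ZMod (3 * a + 4 * r + 1)) := fun i j => Conn a r (j - i).val

variable {a r : ℕ}

theorem val_sum_dvd (x y : ZMod (3 * a + 4 * r + 1)) (h : x + y = 0) :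
    3 * a + 4 * r + 1 ∣ x.val + y.val := by
  rw [← ZMod.natCast_eq_zero_iff]
  push_cast
  rw [ZMod.natCast_zmod_val, ZMod.natCast_zmod_val, h]

theorem val_sum3_dvd (x y z : ZMod (3 * a + 4 * r + 1)) (h : x + y + z = 0) :
    3 * a + 4 * r + 1 ∣ x.val + y.val + z.val := by
  rw [← ZMod.natCast_eq_zero_iff]
  push_cast
  rw [ZMod.natCast_zmod_val, ZMod.natCast_zmod_val, ZMod.natCast_zmod_val, h]

theorem G_free : ShortCycleFree (G a r) := by
  refine ⟨fun u h => ?_, fun u v h => ?_, fun u v w h => ?_⟩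
  · obtain ⟨h1, -, -⟩ := h
    simp at h1
  · obtain ⟨⟨h1, h2, h3⟩, ⟨h4, h5, h6⟩⟩ := h
    have hd := val_sum_dvd (v - u) (u - v) (by ring)
    have := Nat.le_of_dvd (by omega) hd
    omega
  · obtain ⟨⟨h1, h2, h3⟩, ⟨h4, h5, h6⟩, ⟨h7, h8, h9⟩⟩ := h
    have hd := val_sum3_dvd (v - u) (w - v) (u - w) (by ring)
    obtain ⟨q, hq⟩ := hd
    have hq1 : q = 1 := by
      rcases q with _ | _ | q
      · omega
      · rfl
      · exfalso
        have : (3 * a + 4 * r + 1) * (q + 1 + 1) ≥ (3 * a + 4 * r + 1) * 2 :=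
          Nat.mul_le_mul_left _ (by omega)
        omega
    subst hq1
    omega

theorem val_add_natCast_sub (i : ZMod (3 * a + 4 * r + 1)) (s : ℕ) (hs : s < 3 * a + 4 * r + 1) :
    (i + (s : ZMod (3 * a + 4 * r + 1)) - i).val = s := by
  rw [add_sub_cancel_left, ZMod.val_natCast_of_lt hs]

theorem G_add (i : ZMod (3 * a + 4 * r + 1)) (s : ℕ) (hs : s < 3 * a + 4 * r + 1) :
    G a r i (i + (s : ZMod (3 * a + 4 * r + 1))) ↔ Conn a r s := by
  unfold G
  rw [val_add_natCast_sub i s hs]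

theorem exists_add (i j : ZMod (3 * a + 4 * r + 1)) :
    ∃ s : ℕ, s < 3 * a + 4 * r + 1 ∧ j = i + (s : ZMod (3 * a + 4 * r + 1)) :=
  ⟨(j - i).val, ZMod.val_lt _, by rw [ZMod.natCast_zmod_val]; ring⟩

/-- `i + s → i` in terms of `s`. -/
theorem G_add' (i : ZMod (3 * a + 4 * r + 1)) (s : ℕ) (hs : s < 3 * a + 4 * r + 1) (hs0 : 0 < s) :
    G a r (i + (s : ZMod (3 * a + 4 * r + 1))) i ↔ Conn a r (3 * a + 4 * r + 1 - s) := by
  have h : i = (i + (s : ZMod (3 * a + 4 * r + 1))) +
      ((3 * a + 4 * r + 1 - s : ℕ) : ZMod (3 * a + 4 * r + 1)) := by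
    rw [Nat.cast_sub hs.le]
    simp
  conv_lhs => rw [h]
  have h2 : i + (s : ZMod (3 * a + 4 * r + 1)) +
      ((3 * a + 4 * r + 1 - s : ℕ) : ZMod (3 * a + 4 * r + 1)) +
      (s : ZMod (3 * a + 4 * r + 1)) = i + (s : ZMod (3 * a + 4 * r + 1)) := by
    rw [← h]
  rw [h2, G_add _ _ (by omega)]

theorem G_maximal (ha : 1 ≤ a) : IsMaximalFree (G a r) := by
  refine ⟨G_free, fun u v huv h hfree => ?_⟩
  obtain ⟨e, he, rfl⟩ := exists_add v u
  have he0 : 0 < e := by
    rcases Nat.eq_zero_or_pos e with rfl | h0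
    · simp at huv
    · exact h0
  have hmid : ∀ m, G a r v m → G a r m (v + (e : ZMod (3 * a + 4 * r + 1))) → False := by
    intro m h1 h2
    exact hfree.2.2 (v + (e : ZMod (3 * a + 4 * r + 1))) v m
      ⟨Or.inr ⟨rfl, rfl⟩, Or.inl h1, Or.inl h2⟩
  rw [G_add' v e he he0] at h
  by_cases hdig : G a r v (v + (e : ZMod (3 * a + 4 * r + 1)))
  · exact hfree.2.1 _ v ⟨Or.inr ⟨rfl, rfl⟩, Or.inl hdig⟩
  rw [G_add v e he] at hdig
  have step : ∀ s t : ℕ, s + t = e → Conn a r s → Conn a r t → False := by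
    intro s t hst hs ht
    refine hmid (v + (s : ZMod (3 * a + 4 * r + 1))) ((G_add v s (by omega)).2 hs) ?_
    have : v + (e : ZMod (3 * a + 4 * r + 1)) =
        v + (s : ZMod (3 * a + 4 * r + 1)) + (t : ZMod (3 * a + 4 * r + 1)) := by
      rw [← hst]; push_cast; ring
    rw [this]
    exact (G_add _ t (by omega)).2 ht
  unfold Conn at h hdig step
  rcases Nat.lt_or_ge (a + 2 * r) e with h1 | h1
  · exact step (a + 2 * r) (e - (a + 2 * r)) (by omega) (by omega) (by omega)
  · exact step 1 (e - 1) (by omega) (by omega) (by omega)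

/-- The defining condition of a homogeneous set. -/
def Uniform {V : Type} (A : Arcs V) (X : Finset V) : Prop :=
  ∀ w, w ∉ X → (∀ x ∈ X, A w x) ∨ (∀ x ∈ X, A x w) ∨ (∀ x ∈ X, ¬ A w x ∧ ¬ A x w)

theorem mem_of_out {V : Type} {A : Arcs V} {X : Finset V} (hA : ShortCycleFree A)
    (hX : Uniform A X) {w x y : V} (hx : x ∈ X) (hy : y ∈ X) (h1 : A w x) (h2 : ¬ A w y) :
    w ∈ X := by
  by_contra hw
  rcases hX w hw with h | h | h
  · exact h2 (h y hy)
  · exact hA.2.1 w x ⟨h1, h x hx⟩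
  · exact (h x hx).1 h1

theorem mem_of_in {V : Type} {A : Arcs V} {X : Finset V} (hA : ShortCycleFree A)
    (hX : Uniform A X) {w x y : V} (hx : x ∈ X) (hy : y ∈ X) (h1 : A x w) (h2 : ¬ A y w) :
    w ∈ X := by
  by_contra hw
  rcases hX w hw with h | h | h
  · exact hA.2.1 w x ⟨h x hx, h1⟩
  · exact h2 (h y hy)
  · exact (h x hx).2 h1

theorem step_up (ha : 1 ≤ a) (hr : 1 ≤ r) {X : Finset (ZMod (3 * a + 4 * r + 1))}
    (hX : Uniform (G a r) X) {x : ZMod (3 * a + 4 * r + 1)} (h0 : x ∈ X) (h1 : x + 1 ∈ X) :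
    x + 1 + 1 ∈ X := by
  have hA : ShortCycleFree (G a r) := G_free
  have e1 : x + ((a + 2 * r : ℕ) : ZMod (3 * a + 4 * r + 1)) =
      x + 1 + ((a + 2 * r - 1 : ℕ) : ZMod (3 * a + 4 * r + 1)) := by
    rw [Nat.cast_sub (by omega)]; push_cast; ring
  have hk1 : x + ((a + 2 * r : ℕ) : ZMod (3 * a + 4 * r + 1)) ∈ X := by
    refine mem_of_in hA hX h0 h1 ?_ ?_
    · exact (G_add _ _ (by omega)).2 (by unfold Conn; omega)
    · rw [e1, G_add _ _ (by omega)]; unfold Conn; omega
  have e2 : x + ((a + 2 * r + 1 : ℕ) : ZMod (3 * a + 4 * r + 1)) =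
      x + 1 + ((a + 2 * r : ℕ) : ZMod (3 * a + 4 * r + 1)) := by
    push_cast; ring
  have hk2 : x + ((a + 2 * r + 1 : ℕ) : ZMod (3 * a + 4 * r + 1)) ∈ X := by
    refine mem_of_in hA hX h1 h0 ?_ ?_
    · rw [e2]; exact (G_add _ _ (by omega)).2 (by unfold Conn; omega)
    · rw [G_add _ _ (by omega)]; unfold Conn; omega
  refine mem_of_out hA hX hk1 hk2 ?_ ?_
  · have : x + ((a + 2 * r : ℕ) : ZMod (3 * a + 4 * r + 1)) =
        x + 1 + 1 + ((a + 2 * r - 2 : ℕ) : ZMod (3 * a + 4 * r + 1)) := by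
      rw [Nat.cast_sub (by omega)]; push_cast; ring
    rw [this]; exact (G_add _ _ (by omega)).2 (by unfold Conn; omega)
  · have : x + ((a + 2 * r + 1 : ℕ) : ZMod (3 * a + 4 * r + 1)) =
        x + 1 + 1 + ((a + 2 * r - 1 : ℕ) : ZMod (3 * a + 4 * r + 1)) := by
      rw [Nat.cast_sub (by omega)]; push_cast; ring
    rw [this, G_add _ _ (by omega)]; unfold Conn; omega

theorem eq_univ (ha : 1 ≤ a) (hr : 1 ≤ r) {X : Finset (ZMod (3 * a + 4 * r + 1))}
    (hX : Uniform (G a r) X) {x : ZMod (3 * a + 4 * r + 1)} (h0 : x ∈ X) (h1 : x + 1 ∈ X) :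
    ∀ z, z ∈ X := by
  have key : ∀ m : ℕ, x + (m : ZMod (3 * a + 4 * r + 1)) ∈ X ∧
      x + (m : ZMod (3 * a + 4 * r + 1)) + 1 ∈ X := by
    intro m
    induction m with
    | zero => simpa using ⟨h0, h1⟩
    | succ m ih =>
      have h := step_up ha hr hX ih.1 ih.2
      have e : x + ((m + 1 : ℕ) : ZMod (3 * a + 4 * r + 1)) =
          x + (m : ZMod (3 * a + 4 * r + 1)) + 1 := by
        push_cast; ring
      rw [e]
      exact ⟨ih.2, h⟩
  intro z
  obtain ⟨s, -, rfl⟩ := exists_add x z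
  exact (key s).1

theorem start (ha : 1 ≤ a) {X : Finset (ZMod (3 * a + 4 * r + 1))}
    (hX : Uniform (G a r) X) {x : ZMod (3 * a + 4 * r + 1)} {d : ℕ} (hd : 1 ≤ d)
    (hd2 : 2 * d ≤ 3 * a + 4 * r + 1) (h0 : x ∈ X)
    (h1 : x + (d : ZMod (3 * a + 4 * r + 1)) ∈ X) : x + 1 ∈ X := by
  have hA : ShortCycleFree (G a r) := G_free
  rcases Nat.lt_or_ge d 2 with h | h
  · have : d = 1 := by omega
    subst this
    simpa using h1
  · refine mem_of_in hA hX h0 h1 ?_ ?_
    · have := (G_add (a := a) (r := r) x 1 (by omega)).2 (by unfold Conn; omega)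
      simpa using this
    · have e : x + (d : ZMod (3 * a + 4 * r + 1)) =
          x + 1 + ((d - 1 : ℕ) : ZMod (3 * a + 4 * r + 1)) := by
        rw [Nat.cast_sub hd]; push_cast; ring
      rw [e, G_add' _ _ (by omega) (by omega)]
      unfold Conn
      omega

theorem G_nohom (ha : 1 ≤ a) (hr : 1 ≤ r) (X : Finset (ZMod (3 * a + 4 * r + 1))) :
    ¬ IsHomogeneous (G a r) X := by
  rintro ⟨h2, ⟨w, hw⟩, hX⟩
  have hX' : Uniform (G a r) X := hX
  obtain ⟨x, hx, y, hy, hxy⟩ := Finset.one_lt_card.1 (by omega : 1 < X.card)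
  refine hw ?_
  obtain ⟨d, hd, rfl⟩ := exists_add x y
  have hd0 : 1 ≤ d := by
    rcases Nat.eq_zero_or_pos d with rfl | h0
    · simp at hxy
    · exact h0
  by_cases hc : 2 * d ≤ 3 * a + 4 * r + 1
  · exact eq_univ ha hr hX' hx (start ha hX' hd0 hc hx hy) w
  · have e : x + (d : ZMod (3 * a + 4 * r + 1)) +
        ((3 * a + 4 * r + 1 - d : ℕ) : ZMod (3 * a + 4 * r + 1)) = x := by
      rw [Nat.cast_sub hd.le]
      simp
    refine eq_univ ha hr hX' hy
      (start ha hX' (d := 3 * a + 4 * r + 1 - d) (by omega) (by omega) hy ?_) w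
    rw [e]
    exact hx

/-- The connection set. -/
def conn (a r : ℕ) : Finset ℕ :=
  Finset.Icc 1 a ∪ (Finset.Icc 1 r).image (fun j => a + 2 * j)

theorem mem_conn {s : ℕ} : s ∈ conn a r ↔ Conn a r s := by
  unfold conn Conn
  rw [Finset.mem_union, Finset.mem_Icc, Finset.mem_image]
  constructor
  · rintro (h | ⟨j, hj, rfl⟩)
    · omega
    · rw [Finset.mem_Icc] at hj
      omega
  · rintro ⟨h1, h2, h3⟩
    rcases Nat.lt_or_ge a s with h | h
    · refine Or.inr ⟨(s - a) / 2, ?_, ?_⟩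
      · rw [Finset.mem_Icc]
        omega
      · omega
    · exact Or.inl ⟨h1, h⟩

theorem card_conn : (conn a r).card = a + r := by
  unfold conn
  rw [Finset.card_union_of_disjoint, Nat.card_Icc, Finset.card_image_of_injective, Nat.card_Icc]
  · omega
  · intro i j h
    simp only at h
    omega
  · rw [Finset.disjoint_left]
    intro s hs ht
    rw [Finset.mem_Icc] at hs
    rw [Finset.mem_image] at ht
    obtain ⟨j, hj, h⟩ := ht
    rw [Finset.mem_Icc] at hj
    omega

theorem G_outdeg (v : ZMod (3 * a + 4 * r + 1)) : outdeg (G a r) v = a + r := by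
  unfold outdeg
  have h : {w | G a r v w} =
      ((conn a r).image (fun s : ℕ => v + (s : ZMod (3 * a + 4 * r + 1))) : Finset _) := by
    ext w
    simp only [Set.mem_ofPred_eq, Finset.coe_image, Set.mem_image, Finset.mem_coe]
    constructor
    · intro hw
      obtain ⟨s, hs, rfl⟩ := exists_add v w
      exact ⟨s, mem_conn.2 ((G_add v s hs).1 hw), rfl⟩
    · rintro ⟨s, hs, rfl⟩
      have hs' := mem_conn.1 hs
      have hs2 := hs'.2.1
      exact (G_add v s (by omega)).2 hs'
  rw [h, Set.ncard_coe_finset, Finset.card_image_of_injOn, card_conn]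
  intro s hs t ht hst
  have hs' := (mem_conn.1 (Finset.mem_coe.1 hs)).2.1
  have ht' := (mem_conn.1 (Finset.mem_coe.1 ht)).2.1
  have h1 := add_left_cancel hst
  have h2 := congrArg ZMod.val h1
  rwa [ZMod.val_natCast_of_lt (by omega), ZMod.val_natCast_of_lt (by omega)] at h2

theorem G_indeg (v : ZMod (3 * a + 4 * r + 1)) : indeg (G a r) v = a + r := by
  unfold indeg
  have h : {w | G a r w v} =
      ((conn a r).image (fun s : ℕ => v - (s : ZMod (3 * a + 4 * r + 1))) : Finset _) := by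
    ext w
    simp only [Set.mem_ofPred_eq, Finset.coe_image, Set.mem_image, Finset.mem_coe]
    constructor
    · intro hw
      obtain ⟨s, hs, rfl⟩ := exists_add w v
      exact ⟨s, mem_conn.2 ((G_add w s hs).1 hw), by ring⟩
    · rintro ⟨s, hs, rfl⟩
      have hs' := mem_conn.1 hs
      have hs2 := hs'.2.1
      have := (G_add (v - (s : ZMod (3 * a + 4 * r + 1))) s (by omega)).2 hs'
      rwa [sub_add_cancel] at this
  rw [h, Set.ncard_coe_finset, Finset.card_image_of_injOn, card_conn]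
  intro s hs t ht hst
  have hs' := (mem_conn.1 (Finset.mem_coe.1 hs)).2.1
  have ht' := (mem_conn.1 (Finset.mem_coe.1 ht)).2.1
  have h1 := sub_right_injective hst
  have h2 := congrArg ZMod.val h1
  rwa [ZMod.val_natCast_of_lt (by omega), ZMod.val_natCast_of_lt (by omega)] at h2

theorem G_trans (u v : ZMod (3 * a + 4 * r + 1)) :
    ∃ e : ZMod (3 * a + 4 * r + 1) ≃ ZMod (3 * a + 4 * r + 1), e u = v ∧
      ∀ i j, G a r i j ↔ G a r (e i) (e j) := by
  refine ⟨Equiv.addRight (v - u), ?_, fun i j => ?_⟩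
  · simp
  · unfold G
    simp

theorem circular_outdeg (m : ℕ) (i : ZMod (3 * m + 1)) : outdeg (circular m) i = m := by
  unfold outdeg circular
  have h : {w | ∃ t : ℕ, 1 ≤ t ∧ t ≤ m ∧ w = i + (t : ZMod (3 * m + 1))} =
      ((Finset.Icc 1 m).image (fun t : ℕ => i + (t : ZMod (3 * m + 1))) : Finset _) := by
    ext w
    simp only [Set.mem_ofPred_eq, Finset.coe_image, Set.mem_image, Finset.mem_coe,
      Finset.mem_Icc]
    constructor
    · rintro ⟨t, h1, h2, rfl⟩
      exact ⟨t, ⟨h1, h2⟩, rfl⟩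
    · rintro ⟨t, ⟨h1, h2⟩, rfl⟩
      exact ⟨t, h1, h2, rfl⟩
  rw [h, Set.ncard_coe_finset, Finset.card_image_of_injOn, Nat.card_Icc]
  · omega
  · intro s hs t ht hst
    have hs' := Finset.mem_Icc.1 (Finset.mem_coe.1 hs)
    have ht' := Finset.mem_Icc.1 (Finset.mem_coe.1 ht)
    have h1 := add_left_cancel hst
    have h2 := congrArg ZMod.val h1
    rwa [ZMod.val_natCast_of_lt (by omega), ZMod.val_natCast_of_lt (by omega)] at h2

theorem G_notCircular (hr : 1 ≤ r) (m : ℕ) : ¬ ∃ e : ZMod (3 * a + 4 * r + 1) ≃ ZMod (3 * m + 1),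
    ∀ i j, G a r i j ↔ circular m (e i) (e j) := by
  rintro ⟨e, he⟩
  have hc := Nat.card_congr e
  rw [Nat.card_zmod, Nat.card_zmod] at hc
  have h1 := G_outdeg (a := a) (r := r) 0
  have h2 := circular_outdeg m (e 0)
  have h3 : outdeg (G a r) 0 = outdeg (circular m) (e 0) := by
    unfold outdeg
    rw [← Set.ncard_image_of_injective _ e.injective]
    congr 1
    ext w
    simp only [Set.mem_image, Set.mem_ofPred_eq]
    constructor
    · rintro ⟨z, hz, rfl⟩
      exact (he 0 z).1 hz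
    · intro hw
      refine ⟨e.symm w, ?_, e.apply_symm_apply w⟩
      rw [he, e.apply_symm_apply]
      exact hw
  omega

theorem G_counterexample (ha : 1 ≤ a) (hr : 1 ≤ r) :
    Counterexample (3 * a + 4 * r + 1) (a + r) (G a r) where
  maximal := G_maximal ha
  nohom := G_nohom ha hr
  regular := fun v => ⟨G_outdeg v, G_indeg v⟩
  transitive := G_trans
  notCircular := G_notCircular hr

/-- **Thomassé's conjecture fails for every pair (order, degree) in its range except `(3k+1, k)`.**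
(1) For all `n, k` with `3k + 1 < n ≤ 4k` there is a vertex-transitive digraph on `n` vertices, with
all indegrees and outdegrees equal to `k`, which is maximal without directed cycles of length at
most three, has no homogeneous set and is not isomorphic to a circular interval digraph.
(2) This covers all pairs with `4n/15 < k` and `3k + 1 < n`.
(3) In particular the conjecture fails, also for vertex-transitive digraphs, on `n` vertices for
every `n ≥ 22` and for `n = 11, 14, 17, 18, 20, 21`. -/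
theorem result :
    (∀ n k : ℕ, 3 * k + 1 < n → n ≤ 4 * k → ∃ A : Arcs (ZMod n), Counterexample n k A) ∧
    (∀ n k : ℕ, 3 * k + 1 < n → (4 * n : ℚ) / 15 < k →
      ∃ A : Arcs (ZMod n), Counterexample n k A) ∧
    (∀ n : ℕ, 22 ≤ n ∨ n = 11 ∨ n = 14 ∨ n = 17 ∨ n = 18 ∨ n = 20 ∨ n = 21 →
      ∃ k : ℕ, (4 * n : ℚ) / 15 < k ∧ ∃ A : Arcs (ZMod n), Counterexample n k A) := by
  have h1 : ∀ n k : ℕ, 3 * k + 1 < n → n ≤ 4 * k → ∃ A : Arcs (ZMod n), Counterexample n k A := by
    intro n k h1 h2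
    obtain ⟨a, r, ha, hr, rfl, rfl⟩ : ∃ a r : ℕ, 1 ≤ a ∧ 1 ≤ r ∧ k = a + r ∧
        n = 3 * a + 4 * r + 1 :=
      ⟨4 * k + 1 - n, n - 3 * k - 1, by omega, by omega, by omega, by omega⟩
    exact ⟨_, G_counterexample ha hr⟩
  have h2 : ∀ n k : ℕ, 3 * k + 1 < n → (4 * n : ℚ) / 15 < k →
      ∃ A : Arcs (ZMod n), Counterexample n k A := by
    intro n k hn hk
    have hk' : 4 * n < 15 * k := by
      have : (4 * n : ℚ) < 15 * k := by linarith
      exact_mod_cast this
    exact h1 n k hn (by omega)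
  refine ⟨h1, h2, fun n hn => ?_⟩
  have hk : 4 * n < 15 * ((n - 2) / 3) := by omega
  have hk' : (4 * n : ℚ) / 15 < (((n - 2) / 3 : ℕ) : ℚ) := by
    have : (4 * n : ℚ) < 15 * (((n - 2) / 3 : ℕ) : ℚ) := by exact_mod_cast hk
    linarith
  exact ⟨(n - 2) / 3, hk', h2 n _ (by omega) hk'⟩

end Pool.Agent.Results.MP_ba12ad_co.AllPairs
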