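import Mathlib

/-!
# Thomassé's question has no positive answer of any kind

Every finite digraph `D` without directed cycles of length at most three is an induced subdigraph of
maximal digraphs without directed cycles of length at most three, without homogeneous sets and with all
indegrees and outdegrees at least `n/3 - c`, on `n` vertices, for every large `n`; none of them is
isomorphic to a circular interval digraph.
-/

set_option autoImplicit false

namespace Pool.Agent.Results.MP_ba12ad_co.Universality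

/-- A digraph on the vertex set `V`, given by its arc relation. -/
abbrev Arcs (V : Type) := V → V → Prop

/-- No loops, no directed 2-cycle and no directed triangle. -/
def ShortCycleFree {V : Type} (A : Arcs V) : Prop :=
  (∀ u, ¬ A u u) ∧ (∀ u v, ¬ (A u v ∧ A v u)) ∧ (∀ u v w, ¬ (A u v ∧ A v w ∧ A w u))

/-- The digraph obtained from `A` by adding the arc from `u` to `v`. -/
def addArc {V : Type} (A : Arcs V) (u v : V) : Arcs V :=
  fun x y => A x y ∨ (x = u ∧ y = v)

/-- `A` has no directed cycle of length at most three, and adding any absent arc creates one. -/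
def IsMaximalFree {V : Type} (A : Arcs V) : Prop :=
  ShortCycleFree A ∧ ∀ u v, u ≠ v → ¬ A u v → ¬ ShortCycleFree (addArc A u v)

/-- `X` is a homogeneous set of `A`. -/
def IsHomogeneous {V : Type} [Fintype V] (A : Arcs V) (X : Finset V) : Prop :=
  2 ≤ X.card ∧ X.card < Fintype.card V ∧
    ∀ w, w ∉ X → (∀ x ∈ X, A w x) ∨ (∀ x ∈ X, A x w) ∨ (∀ x ∈ X, ¬ A w x ∧ ¬ A x w)

/-- The outdegree of `v` in `A`. -/
noncomputable def outdeg {V : Type} (A : Arcs V) (v : V) : ℕ := {w | A v w}.ncard

/-- The indegree of `v` in `A`. -/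
noncomputable def indeg {V : Type} (A : Arcs V) (v : V) : ℕ := {w | A w v}.ncard

/-- The circular interval digraph on the integers modulo `3m+1`: `i` points to `i+1,...,i+m`. -/
def circular (m : ℕ) : Arcs (ZMod (3 * m + 1)) :=
  fun i j => ∃ t : ℕ, 1 ≤ t ∧ t ≤ m ∧ j = i + (t : ZMod (3 * m + 1))

/-! ### Digraphs on a circle with one interval replaced -/

/-- `q` is one of the `k` positions following `p` on a circle of `3k+1` positions. -/
def Cl (k p q : ℕ) : Prop := (p < q ∧ q ≤ p + k) ∨ q + (3 * k + 1) ≤ p + k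

/-- The positions below `b` form a block in which the arcs are arbitrary. -/
structure Sys {V : Type} (A : Arcs V) (pos : V → ℕ) (k b : ℕ) : Prop where
  b1 : 1 ≤ b
  kb : b + 1 ≤ k
  lt : ∀ v, pos v < 3 * k + 1
  far : ∀ u v, (b ≤ pos u ∨ b ≤ pos v) → (A u v ↔ Cl k (pos u) (pos v))
  surj : ∀ p, p < 3 * k + 1 → ∃ v, pos v = p
  inj : ∀ u v, pos u = pos v → b ≤ pos u → u = v
  free1 : ∀ u, pos u < b → ¬ A u u
  free2 : ∀ u v, pos u < b → pos v < b → ¬ (A u v ∧ A v u)
  free3 : ∀ u v w, pos u < b → pos v < b → pos w < b → ¬ (A u v ∧ A v w ∧ A w u)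
  mx : ∀ u v, pos u < b → pos v < b → u ≠ v → ¬ A u v → A v u ∨ ∃ z, A v z ∧ A z u
  fib : ∀ u v, u ≠ v → pos u = pos v → ∃ w, pos w ≠ pos u ∧
    ((A w u ∧ ¬ A w v) ∨ (A w v ∧ ¬ A w u) ∨ (A u w ∧ ¬ A v w) ∨ (A v w ∧ ¬ A u w))

namespace Sys

variable {V : Type} {A : Arcs V} {pos : V → ℕ} {k b : ℕ}

theorem yes (S : Sys A pos k b) {u v : V} (h : b ≤ pos u ∨ b ≤ pos v) (h' : Cl k (pos u) (pos v)) :
    A u v := (S.far u v h).2 h'

theorem no (S : Sys A pos k b) {u v : V} (h : b ≤ pos u ∨ b ≤ pos v) (h' : ¬ Cl k (pos u) (pos v)) :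
    ¬ A u v := fun h2 => h' ((S.far u v h).1 h2)

theorem ex (S : Sys A pos k b) (m : ℕ) (hm : m < 2 * (3 * k + 1)) :
    ∃ v, pos v = m ∨ pos v + (3 * k + 1) = m := by
  by_cases h : m < 3 * k + 1
  · obtain ⟨v, hv⟩ := S.surj m h
    exact ⟨v, Or.inl hv⟩
  · obtain ⟨v, hv⟩ := S.surj (m - (3 * k + 1)) (by omega)
    exact ⟨v, Or.inr (by omega)⟩

theorem free (S : Sys A pos k b) : ShortCycleFree A := by
  have hb1 := S.b1
  have hkb := S.kb
  refine ⟨fun u h => ?_, fun u v h => ?_, fun u v w h => ?_⟩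
  · by_cases hu : pos u < b
    · exact S.free1 u hu h
    · have h1 := (S.far u u (Or.inl (by omega))).1 h
      unfold Cl at h1
      omega
  · by_cases hu : pos u < b ∧ pos v < b
    · exact S.free2 u v hu.1 hu.2 h
    · have h1 := (S.far u v (by omega)).1 h.1
      have h2 := (S.far v u (by omega)).1 h.2
      have hu := S.lt u
      have hv := S.lt v
      unfold Cl at h1 h2
      omega
  · by_cases hu : pos u < b ∧ pos v < b ∧ pos w < b
    · exact S.free3 u v w hu.1 hu.2.1 hu.2.2 h
    · have h1 : (b ≤ pos u ∨ b ≤ pos v) → Cl k (pos u) (pos v) := fun h' => (S.far u v h').1 h.1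
      have h2 : (b ≤ pos v ∨ b ≤ pos w) → Cl k (pos v) (pos w) := fun h' => (S.far v w h').1 h.2.1
      have h3 : (b ≤ pos w ∨ b ≤ pos u) → Cl k (pos w) (pos u) := fun h' => (S.far w u h').1 h.2.2
      have hu := S.lt u
      have hv := S.lt v
      have hw := S.lt w
      unfold Cl at h1 h2 h3
      omega

theorem maximal (S : Sys A pos k b) : IsMaximalFree A := by
  have hb1 := S.b1
  have hkb := S.kb
  refine ⟨S.free, fun u v huv h hf => ?_⟩
  have key : A v u ∨ ∃ z, A v z ∧ A z u := by
    by_cases hb : pos u < b ∧ pos v < b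
    · exact S.mx u v hb.1 hb.2 huv h
    · have hb' : b ≤ pos u ∨ b ≤ pos v := by omega
      have h1 : ¬ Cl k (pos u) (pos v) := fun h2 => h (S.yes hb' h2)
      have hne : pos u ≠ pos v := fun he => huv (S.inj u v he (by omega))
      by_cases h2 : Cl k (pos v) (pos u)
      · exact Or.inl (S.yes (by omega) h2)
      · right
        have hu := S.lt u
        have hv := S.lt v
        by_cases hub : pos u < b
        · obtain ⟨z, hz⟩ := S.ex (pos u + (2 * k + 1)) (by omega)
          unfold Cl at h1 h2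
          refine ⟨z, S.yes (by omega) (by unfold Cl; omega), S.yes (by omega) (by unfold Cl; omega)⟩
        · obtain ⟨z, hz⟩ := S.ex (pos v + k) (by omega)
          unfold Cl at h1 h2
          have hzl := S.lt z
          refine ⟨z, S.yes (by omega) (by unfold Cl; omega), S.yes (by omega) (by unfold Cl; omega)⟩
  rcases key with h1 | ⟨z, h1, h2⟩
  · exact hf.2.1 u v ⟨Or.inr ⟨rfl, rfl⟩, Or.inl h1⟩
  · exact hf.2.2 u v z ⟨Or.inr ⟨rfl, rfl⟩, Or.inl h1, Or.inl h2⟩

/-- The defining condition of a homogeneous set. -/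
def Uniform (A : Arcs V) (X : Finset V) : Prop :=
  ∀ w, w ∉ X → (∀ x ∈ X, A w x) ∨ (∀ x ∈ X, A x w) ∨ (∀ x ∈ X, ¬ A w x ∧ ¬ A x w)

theorem mem_of_out {X : Finset V} (hA : ShortCycleFree A)
    (hX : Uniform A X) {w x y : V} (hx : x ∈ X) (hy : y ∈ X) (h1 : A w x) (h2 : ¬ A w y) :
    w ∈ X := by
  by_contra hw
  rcases hX w hw with h | h | h
  · exact h2 (h y hy)
  · exact hA.2.1 w x ⟨h1, h x hx⟩
  · exact (h x hx).1 h1

theorem mem_of_in {X : Finset V} (hA : ShortCycleFree A)
    (hX : Uniform A X) {w x y : V} (hx : x ∈ X) (hy : y ∈ X) (h1 : A x w) (h2 : ¬ A y w) :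
    w ∈ X := by
  by_contra hw
  rcases hX w hw with h | h | h
  · exact hA.2.1 w x ⟨h x hx, h1⟩
  · exact h2 (h y hy)
  · exact (h x hx).2 h1

/-- `y` is at the position following the one of `x` -/
def Nx (k : ℕ) (pos : V → ℕ) (x y : V) : Prop := pos y = pos x + 1 ∨ (pos x = 3 * k ∧ pos y = 0)

theorem stepF (S : Sys A pos k b) {X : Finset V} (hX : Uniform A X) {x y w : V} (hx : x ∈ X)
    (hy : y ∈ X) (hxy : Nx k pos x y) (hyw : Nx k pos y w) : w ∈ X := by
  have hA := S.free
  have hb1 := S.b1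
  have hkb := S.kb
  have lx := S.lt x
  have ly := S.lt y
  have lw := S.lt w
  unfold Nx at hxy hyw
  obtain ⟨a, ha⟩ := S.ex (pos y + k) (by omega)
  obtain ⟨c, hc⟩ := S.ex (pos x + (2 * k + 1)) (by omega)
  have la := S.lt a
  have lc := S.lt c
  have haX : a ∈ X := mem_of_in hA hX hy hx (S.yes (by omega) (by unfold Cl; omega))
    (S.no (by omega) (by unfold Cl; omega))
  have hcX : c ∈ X := mem_of_out hA hX hx hy (S.yes (by omega) (by unfold Cl; omega))
    (S.no (by omega) (by unfold Cl; omega))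
  exact mem_of_out hA hX haX hcX (S.yes (by omega) (by unfold Cl; omega))
    (S.no (by omega) (by unfold Cl; omega))

theorem all_of_consec (S : Sys A pos k b) {X : Finset V} (hX : Uniform A X) :
    ∀ d : ℕ, ∀ x y : V, x ∈ X → y ∈ X → Nx k pos x y → ∀ v : V,
      (pos v = pos y + 1 + d ∨ pos v + (3 * k + 1) = pos y + 1 + d) → v ∈ X := by
  intro d
  induction d with
  | zero =>
    intro x y hx hy hxy v hv
    have ly := S.lt y
    refine S.stepF hX hx hy hxy ?_
    unfold Nx
    omega
  | succ d ih =>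
    intro x y hx hy hxy v hv
    have ly := S.lt y
    have lv := S.lt v
    obtain ⟨z, hz⟩ := S.ex (pos y + 1) (by omega)
    have lz := S.lt z
    have hyz : Nx k pos y z := by unfold Nx; omega
    exact ih y z hy (S.stepF hX hx hy hxy hyz) hyz v (by omega)

theorem all_mem (S : Sys A pos k b) {X : Finset V} (hX : Uniform A X) {x y : V} (hx : x ∈ X)
    (hy : y ∈ X) (hxy : Nx k pos x y) (v : V) : v ∈ X := by
  have ly := S.lt y
  have lv := S.lt v
  by_cases h : pos y + 1 ≤ pos v
  · exact S.all_of_consec hX (pos v - (pos y + 1)) x y hx hy hxy v (by omega)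
  · exact S.all_of_consec hX (pos v + (3 * k + 1) - (pos y + 1)) x y hx hy hxy v (by omega)

theorem near (S : Sys A pos k b) {X : Finset V} (hX : Uniform A X) {x y : V} (hx : x ∈ X)
    (hy : y ∈ X) (e : ℕ) (h1 : 1 ≤ e) (h2 : e ≤ k)
    (he : pos y = pos x + e ∨ pos y + (3 * k + 1) = pos x + e) :
    ∃ x' ∈ X, ∃ y' ∈ X, Nx k pos x' y' := by
  have hA := S.free
  have hb1 := S.b1
  have hkb := S.kb
  have lx := S.lt x
  have ly := S.lt y
  by_cases he1 : e = 1
  · refine ⟨x, hx, y, hy, ?_⟩
    unfold Nx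
    omega
  obtain ⟨a, ha⟩ := S.ex (pos y + k) (by omega)
  obtain ⟨c, hc⟩ := S.ex (pos x + (2 * k + 1)) (by omega)
  have la := S.lt a
  have lc := S.lt c
  have haX : a ∈ X := mem_of_in hA hX hy hx (S.yes (by omega) (by unfold Cl; omega))
    (S.no (by omega) (by unfold Cl; omega))
  have hcX : c ∈ X := mem_of_out hA hX hx hy (S.yes (by omega) (by unfold Cl; omega))
    (S.no (by omega) (by unfold Cl; omega))
  by_cases hek : e = k
  · refine ⟨a, haX, c, hcX, ?_⟩
    unfold Nx
    omega
  obtain ⟨w, hw⟩ := S.ex (pos a + 1) (by omega)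
  have lw := S.lt w
  by_cases hblk : pos w < b ∧ pos c < b
  · obtain ⟨w', hw'⟩ := S.ex (pos x + 1) (by omega)
    have lw' := S.lt w'
    refine ⟨x, hx, w', ?_, by unfold Nx; omega⟩
    exact mem_of_out hA hX hy haX (S.yes (by omega) (by unfold Cl; omega))
      (S.no (by omega) (by unfold Cl; omega))
  · refine ⟨a, haX, w, ?_, by unfold Nx; omega⟩
    exact mem_of_out hA hX hcX hy (S.yes (by omega) (by unfold Cl; omega))
      (S.no (by omega) (by unfold Cl; omega))

theorem midway (S : Sys A pos k b) {X : Finset V} (hX : Uniform A X) {x y : V} (hx : x ∈ X)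
    (hy : y ∈ X) (e : ℕ) (h1 : 1 ≤ e) (h2 : 2 * e ≤ 3 * k + 1)
    (he : pos y = pos x + e ∨ pos y + (3 * k + 1) = pos x + e) :
    ∃ x' ∈ X, ∃ y' ∈ X, Nx k pos x' y' := by
  have hA := S.free
  have hb1 := S.b1
  have hkb := S.kb
  have lx := S.lt x
  have ly := S.lt y
  by_cases hek : e ≤ k
  · exact S.near hX hx hy e h1 hek he
  obtain ⟨w, hw⟩ := S.ex (pos x + k) (by omega)
  have lw := S.lt w
  by_cases hblk : pos y < b ∧ pos w < b
  · obtain ⟨w', hw'⟩ := S.ex (pos y + (2 * k + 1)) (by omega)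
    have lw' := S.lt w'
    have hwX : w' ∈ X := mem_of_out hA hX hy hx (S.yes (by omega) (by unfold Cl; omega))
      (S.no (by omega) (by unfold Cl; omega))
    exact S.near hX hwX hy k (by omega) le_rfl (by omega)
  · have hwX : w ∈ X := mem_of_in hA hX hx hy (S.yes (by omega) (by unfold Cl; omega))
      (S.no (by omega) (by unfold Cl; omega))
    exact S.near hX hx hwX k (by omega) le_rfl (by omega)

theorem consec (S : Sys A pos k b) {X : Finset V} (hX : Uniform A X) {x y : V} (hx : x ∈ X)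
    (hy : y ∈ X) (hne : pos x ≠ pos y) : ∃ x' ∈ X, ∃ y' ∈ X, Nx k pos x' y' := by
  have lx := S.lt x
  have ly := S.lt y
  by_cases h : pos x < pos y
  · by_cases h2 : 2 * (pos y - pos x) ≤ 3 * k + 1
    · exact S.midway hX hx hy (pos y - pos x) (by omega) h2 (by omega)
    · exact S.midway hX hy hx (3 * k + 1 - (pos y - pos x)) (by omega) (by omega) (by omega)
  · by_cases h2 : 2 * (pos x - pos y) ≤ 3 * k + 1
    · exact S.midway hX hy hx (pos x - pos y) (by omega) h2 (by omega)
    · exact S.midway hX hx hy (3 * k + 1 - (pos x - pos y)) (by omega) (by omega) (by omega)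

theorem nohom [Fintype V] (S : Sys A pos k b) (X : Finset V) : ¬ IsHomogeneous A X := by
  rintro ⟨h2, hlt, hX⟩
  have hX' : Uniform A X := hX
  have hA := S.free
  obtain ⟨x, hx, y, hy, hxy⟩ := Finset.one_lt_card.1 (by omega : 1 < X.card)
  have hdiff : ∃ z ∈ X, pos x ≠ pos z := by
    by_cases hp : pos x = pos y
    · obtain ⟨w, hw, h⟩ := S.fib x y hxy hp
      refine ⟨w, ?_, fun h => hw h.symm⟩
      rcases h with h | h | h | h
      · exact mem_of_out hA hX' hx hy h.1 h.2
      · exact mem_of_out hA hX' hy hx h.1 h.2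
      · exact mem_of_in hA hX' hx hy h.1 h.2
      · exact mem_of_in hA hX' hy hx h.1 h.2
    · exact ⟨y, hy, hp⟩
  obtain ⟨z, hz, hne⟩ := hdiff
  obtain ⟨x', hx', y', hy', hn⟩ := S.consec hX' hx hz hne
  have : X = Finset.univ := Finset.eq_univ_iff_forall.2 fun v => S.all_mem hX' hx' hy' hn v
  rw [this, Finset.card_univ] at hlt
  exact lt_irrefl _ hlt

theorem out_ge [Fintype V] (S : Sys A pos k b) (v : V) : k - b ≤ outdeg A v := by
  classical
  have hb1 := S.b1
  have hkb := S.kb
  have lv := S.lt v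
  have hex : ∀ i : Fin (k - b), ∃ w, pos w = pos v + (b + 1 + i) ∨
      pos w + (3 * k + 1) = pos v + (b + 1 + i) := fun i => S.ex _ (by have := i.2; omega)
  choose g hg using hex
  have hinj : Function.Injective g := by
    intro i j hij
    have h1 := hg i
    have h2 := hg j
    have l1 := S.lt (g i)
    rw [hij] at h1 l1
    have := i.2
    have := j.2
    exact Fin.ext (by omega)
  have hsub : (((Finset.univ : Finset (Fin (k - b))).image g : Finset V) : Set V) ⊆ {w | A v w} := by
    intro w hw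
    rw [Finset.mem_coe, Finset.mem_image] at hw
    obtain ⟨i, -, rfl⟩ := hw
    have h1 := hg i
    have l1 := S.lt (g i)
    have := i.2
    exact S.yes (by omega) (by unfold Cl; omega)
  have h := Set.ncard_le_ncard hsub (Set.toFinite _)
  rw [Set.ncard_coe_finset, Finset.card_image_of_injective _ hinj, Finset.card_univ,
    Fintype.card_fin] at h
  exact h

theorem in_ge [Fintype V] (S : Sys A pos k b) (v : V) : k - b ≤ indeg A v := by
  classical
  have hb1 := S.b1
  have hkb := S.kb
  have lv := S.lt v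
  have hex : ∀ i : Fin (k - b), ∃ w, pos w = pos v + (3 * k + 1 - (b + 1 + i)) ∨
      pos w + (3 * k + 1) = pos v + (3 * k + 1 - (b + 1 + i)) :=
    fun i => S.ex _ (by have := i.2; omega)
  choose g hg using hex
  have hinj : Function.Injective g := by
    intro i j hij
    have h1 := hg i
    have h2 := hg j
    have l1 := S.lt (g i)
    rw [hij] at h1 l1
    have := i.2
    have := j.2
    exact Fin.ext (by omega)
  have hsub : (((Finset.univ : Finset (Fin (k - b))).image g : Finset V) : Set V) ⊆ {w | A w v} := by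
    intro w hw
    rw [Finset.mem_coe, Finset.mem_image] at hw
    obtain ⟨i, -, rfl⟩ := hw
    have h1 := hg i
    have l1 := S.lt (g i)
    have := i.2
    exact S.yes (by omega) (by unfold Cl; omega)
  have h := Set.ncard_le_ncard hsub (Set.toFinite _)
  rw [Set.ncard_coe_finset, Finset.card_image_of_injective _ hinj, Finset.card_univ,
    Fintype.card_fin] at h
  exact h

end Sys

/-! ### Inserting a maximal digraph into the circle -/

theorem cyc_of_max {V : Type} {A : Arcs V} (h : IsMaximalFree A) {u v : V} (huv : u ≠ v)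
    (hn : ¬ A u v) : A v u ∨ ∃ z, A v z ∧ A z u := by
  by_contra hc
  have h1 : ¬ A v u := fun h' => hc (Or.inl h')
  have h2 : ∀ z, A v z → A z u → False := fun z h3 h4 => hc (Or.inr ⟨z, h3, h4⟩)
  refine h.2 u v huv hn ⟨fun x hx => ?_, fun x y hxy => ?_, fun x y z hxyz => ?_⟩
  · rcases hx with hx | ⟨rfl, rfl⟩
    · exact h.1.1 x hx
    · exact huv rfl
  · obtain ⟨hx | ⟨rfl, rfl⟩, hy | ⟨h3, h4⟩⟩ := hxy
    · exact h.1.2.1 x y ⟨hx, hy⟩
    · rw [h3, h4] at hx
      exact h1 hx
    · exact h1 hy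
    · exact huv h3.symm
  · obtain ⟨hx | ⟨rfl, rfl⟩, hy | ⟨h3, h4⟩, hz | ⟨h5, h6⟩⟩ := hxyz
    · exact h.1.2.2 x y z ⟨hx, hy, hz⟩
    · rw [h6] at hx
      rw [h5] at hy
      exact h2 y hx hy
    · rw [h4] at hz
      rw [h3] at hx
      exact h2 x hz hx
    · exact huv (h5.symm.trans h4)
    · exact h2 z hy hz
    · exact huv h6
    · exact huv h3.symm
    · exact huv h3.symm

theorem exists_max {V : Type} [Finite V] {H : Arcs V} (hH : ShortCycleFree H) :
    ∃ A : Arcs V, (∀ u v, H u v → A u v) ∧ IsMaximalFree A := by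
  obtain ⟨A, hHA, hA⟩ := Set.Finite.exists_le_maximal
    (s := {A : V → V → Prop | ShortCycleFree A}) (Set.toFinite _) hH
  refine ⟨A, fun u v h => hHA u v h, hA.prop, fun u v _ hn hf => hn ?_⟩
  have hle : A ≤ addArc A u v := fun x y h => Or.inl h
  exact hA.le_of_ge hf hle u v (Or.inr ⟨rfl, rfl⟩)

section insert

variable {W : Type} (A : Arcs W) (π : W → ℕ) (k b t : ℕ)

/-- positions on the circle -/
def place : W ⊕ Fin t → ℕ
  | .inl w => π w
  | .inr i => b + i

/-- The circular interval digraph with a block replaced by `A`. -/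
def circle : Arcs (W ⊕ Fin t)
  | .inl w, .inl w' => A w w'
  | x, y => Cl k (place π b t x) (place π b t y)

variable {A π k b t}

theorem circle_sys (hA : IsMaximalFree A) (hb : 1 ≤ b) (hk : b + 1 ≤ k) (ht : t = 3 * k + 1 - b)
    (h1 : ∀ w, π w < b) (h2 : ∀ p, p < b → ∃ w, π w = p)
    (h3 : ∀ u v, u ≠ v → π u = π v → ∃ w, π w ≠ π u ∧
      ((A w u ∧ ¬ A w v) ∨ (A w v ∧ ¬ A w u) ∨ (A u w ∧ ¬ A v w) ∨ (A v w ∧ ¬ A u w))) :
    Sys (circle A π k b t) (place π b t) k b where
  b1 := hb
  kb := hk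
  lt := by
    rintro (w | i)
    · have := h1 w
      show π w < 3 * k + 1
      omega
    · have := i.2
      show b + (i : ℕ) < 3 * k + 1
      omega
  far := by
    rintro (w | i) (w' | j) h
    · have e1 : place π b t (.inl w) = π w := rfl
      have e2 : place π b t (.inl w') = π w' := rfl
      have := h1 w
      have := h1 w'
      omega
    · exact Iff.rfl
    · exact Iff.rfl
    · exact Iff.rfl
  surj := by
    intro p hp
    by_cases h : p < b
    · obtain ⟨w, hw⟩ := h2 p h
      exact ⟨.inl w, hw⟩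
    · refine ⟨.inr ⟨p - b, by omega⟩, ?_⟩
      show b + (p - b) = p
      omega
  inj := by
    rintro (w | i) (w' | j) he hb'
    · have e1 : place π b t (.inl w) = π w := rfl
      have := h1 w
      omega
    · have e1 : place π b t (.inl w) = π w := rfl
      have := h1 w
      omega
    · have e1 : place π b t (.inl w') = π w' := rfl
      have := h1 w'
      omega
    · have e1 : place π b t (.inr i) = b + (i : ℕ) := rfl
      have e2 : place π b t (.inr j) = b + (j : ℕ) := rfl
      have : i = j := Fin.ext (by omega)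
      rw [this]
  free1 := by
    rintro (w | i) hu h
    · exact hA.1.1 w h
    · have e1 : place π b t (.inr i) = b + (i : ℕ) := rfl
      omega
  free2 := by
    rintro (w | i) (w' | j) hu hv h
    · exact hA.1.2.1 w w' h
    · have e1 : place π b t (.inr j) = b + (j : ℕ) := rfl
      omega
    · have e1 : place π b t (.inr i) = b + (i : ℕ) := rfl
      omega
    · have e1 : place π b t (.inr i) = b + (i : ℕ) := rfl
      omega
  free3 := by
    rintro (w | i) (w' | j) (w'' | l) hu hv hw h
    · exact hA.1.2.2 w w' w'' h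
    all_goals
      first
        | (have e1 : place π b t (.inr i) = b + (i : ℕ) := rfl
           omega)
        | (have e1 : place π b t (.inr j) = b + (j : ℕ) := rfl
           omega)
        | (have e1 : place π b t (.inr l) = b + (l : ℕ) := rfl
           omega)
  mx := by
    rintro (w | i) (w' | j) hu hv hne hn
    · have hne' : w ≠ w' := fun h => hne (by rw [h])
      rcases cyc_of_max hA hne' hn with h | ⟨z, h⟩
      · exact Or.inl h
      · exact Or.inr ⟨.inl z, h⟩
    · have e1 : place π b t (.inr j) = b + (j : ℕ) := rfl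
      omega
    · have e1 : place π b t (.inr i) = b + (i : ℕ) := rfl
      omega
    · have e1 : place π b t (.inr i) = b + (i : ℕ) := rfl
      omega
  fib := by
    rintro (w | i) (w' | j) hne he
    · have hne' : w ≠ w' := fun h => hne (by rw [h])
      obtain ⟨z, hz⟩ := h3 w w' hne' he
      exact ⟨.inl z, hz⟩
    · have e1 : place π b t (.inl w) = π w := rfl
      have e2 : place π b t (.inr j) = b + (j : ℕ) := rfl
      have := h1 w
      omega
    · have e1 : place π b t (.inl w') = π w' := rfl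
      have e2 : place π b t (.inr i) = b + (i : ℕ) := rfl
      have := h1 w'
      omega
    · have e1 : place π b t (.inr i) = b + (i : ℕ) := rfl
      have e2 : place π b t (.inr j) = b + (j : ℕ) := rfl
      exact absurd (congrArg Sum.inr (Fin.ext (by omega) : i = j)) hne

end insert

/-! ### The gadgets -/

section gadget

variable {U : Type} (D : Arcs U)

/-- two different vertices which are not adjacent -/
def Bad (u v : U) : Prop := u ≠ v ∧ ¬ D u v ∧ ¬ D v u

/-- `D`, a path `v → z → u` for all nonadjacent `u`, `v`, and two directed cycles of length four -/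
def H : Arcs ((U ⊕ U × U) ⊕ (Fin 4 × Bool))
  | .inl (.inl u), .inl (.inl v) => D u v
  | .inl (.inl v), .inl (.inr z) => z.2 = v ∧ Bad D z.1 z.2
  | .inl (.inr z), .inl (.inl u) => z.1 = u ∧ Bad D z.1 z.2
  | .inr x, .inr y => x.2 = y.2 ∧ y.1 = x.1 + 1
  | _, _ => False

theorem c4a : ∀ i : Fin 4, ¬ i = i + 1 := by decide
theorem c4b : ∀ i j : Fin 4, ¬ (j = i + 1 ∧ i = j + 1) := by decide
theorem c4c : ∀ i j l : Fin 4, ¬ (j = i + 1 ∧ l = j + 1 ∧ i = l + 1) := by decide

variable {D}

theorem H_free (hD : ShortCycleFree D) : ShortCycleFree (H D) := by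
  refine ⟨?_, ?_, ?_⟩
  · rintro ((u | z) | x) h
    · exact hD.1 u h
    · exact h
    · exact c4a x.1 h.2
  · rintro ((u | z) | x) ((v | z') | y) ⟨h1, h2⟩
    · exact hD.2.1 u v ⟨h1, h2⟩
    · exact h1.2.1 (h2.1.trans h1.1.symm)
    · exact h1
    · exact h1.2.1 (h1.1.trans h2.1.symm)
    · exact h1
    · exact h1
    · exact h1
    · exact h1
    · exact c4b x.1 y.1 ⟨h1.2, h2.2⟩
  · rintro ((u | z) | x) ((v | z') | y) ((w | z'') | a) ⟨h1, h2, h3⟩
    all_goals
      first
        | exact hD.2.2 _ _ _ ⟨h1, h2, h3⟩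
        | exact c4c _ _ _ ⟨h1.2, h2.2, h3.2⟩
        | exact False.elim h1
        | exact False.elim h2
        | exact False.elim h3
        | (obtain ⟨rfl, hb⟩ := h1
           obtain ⟨rfl, -⟩ := h3
           exact hb.2.1 h2)
        | (obtain ⟨rfl, hb⟩ := h1
           obtain ⟨rfl, -⟩ := h2
           exact hb.2.1 h3)
        | (obtain ⟨rfl, hb⟩ := h2
           obtain ⟨rfl, -⟩ := h3
           exact hb.2.1 h1)

theorem restrict {A : Arcs ((U ⊕ U × U) ⊕ (Fin 4 × Bool))}
    (hA : ShortCycleFree A) (hH : ∀ x y, H D x y → A x y) (u v : U) :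
    A (.inl (.inl u)) (.inl (.inl v)) ↔ D u v := by
  refine ⟨fun h => ?_, fun h => hH _ _ h⟩
  by_contra hn
  by_cases h2 : D v u
  · exact hA.2.1 _ _ ⟨h, hH (.inl (.inl v)) (.inl (.inl u)) h2⟩
  · by_cases h3 : u = v
    · rw [h3] at h
      exact hA.1 _ h
    · have hb : Bad D u v := ⟨h3, hn, h2⟩
      exact hA.2.2 (.inl (.inl u)) (.inl (.inl v)) (.inl (.inr (u, v)))
        ⟨h, hH _ _ ⟨rfl, hb⟩, hH _ _ ⟨rfl, hb⟩⟩

theorem sq {A : Arcs ((U ⊕ U × U) ⊕ (Fin 4 × Bool))} (hH : ∀ x y, H D x y → A x y) (c : Bool) :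
    A (.inr (0, c)) (.inr (1, c)) ∧ A (.inr (1, c)) (.inr (2, c)) ∧ A (.inr (2, c)) (.inr (3, c)) ∧
      A (.inr (3, c)) (.inr (0, c)) :=
  ⟨hH _ _ ⟨rfl, rfl⟩, hH _ _ ⟨rfl, rfl⟩, hH _ _ ⟨rfl, rfl⟩, hH _ _ ⟨rfl, rfl⟩⟩

end gadget

/-! ### Positions of the gadgets -/

/-- positions of the two directed cycles of length four: `r` pairs of vertices share a position -/
def sp (r : Fin 3) (x : Fin 4 × Bool) : ℕ :=
  if x.2 = false then (if 1 ≤ r.val then x.1.val - 1 else x.1.val)
  else (if 1 ≤ r.val then 3 else 4) + (if 2 ≤ r.val then x.1.val - 1 else x.1.val)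

theorem sp_lt : ∀ (r : Fin 3) (x : Fin 4 × Bool), sp r x < 8 - r.val := by decide

theorem sp_surj : ∀ (r : Fin 3) (p : Fin 8), p.val < 8 - r.val → ∃ x, sp r x = p.val := by decide

theorem sp_fib0 : ∀ (r : Fin 3) (i : Fin 4) (a : Bool) (j : Fin 4) (c : Bool),
    (i ≠ j ∨ a ≠ c) → sp r (i, a) = sp r (j, c) →
    sp r (3, a) ≠ sp r (i, a) ∧ a = c ∧ ((i = 0 ∧ j = 1) ∨ (i = 1 ∧ j = 0)) := by decide

theorem sp_fib (r : Fin 3) (x y : Fin 4 × Bool) (hne : x ≠ y) (h : sp r x = sp r y) :
    sp r (3, x.2) ≠ sp r x ∧ x.2 = y.2 ∧ ((x.1 = 0 ∧ y.1 = 1) ∨ (x.1 = 1 ∧ y.1 = 0)) := by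
  refine sp_fib0 r x.1 x.2 y.1 y.2 ?_ h
  by_contra hc
  rw [not_or, not_not, not_not] at hc
  exact hne (Prod.ext hc.1 hc.2)

theorem circ_tri {m : ℕ} {x y z : ZMod (3 * m + 1)} (h1 : circular m x y) (h2 : circular m x z)
    (hne : y ≠ z) : circular m y z ∨ circular m z y := by
  obtain ⟨s, hs1, hs2, rfl⟩ := h1
  obtain ⟨t, ht1, ht2, rfl⟩ := h2
  rcases lt_trichotomy s t with h | h | h
  · left
    refine ⟨t - s, by omega, by omega, ?_⟩
    rw [Nat.cast_sub h.le]
    ring
  · rw [h] at hne
    exact absurd rfl hne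
  · right
    refine ⟨s - t, by omega, by omega, ?_⟩
    rw [Nat.cast_sub h.le]
    ring

/-- Let `D` be a finite digraph without directed cycles of length at most three, and
`c = |D|^2 + |D| + 9`. For every `n > 15c` there is a digraph on `n` vertices which is maximal without
directed cycles of length at most three, has no homogeneous set, has all indegrees and outdegrees at
least `n/3 - c` (so more than `4n/15`), is not isomorphic to any circular interval digraph, and
contains `D` as an induced subdigraph. -/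
theorem result {U : Type} [Fintype U] (D : Arcs U) (hD : ShortCycleFree D) (c : ℕ)
    (hc : c = Fintype.card U ^ 2 + Fintype.card U + 9) (n : ℕ) (hn : 15 * c < n) :
    ∃ (V : Type) (_ : Fintype V) (A : Arcs V), Fintype.card V = n ∧ IsMaximalFree A ∧
      (∀ X : Finset V, ¬ IsHomogeneous A X) ∧
      (∀ v, (n : ℝ) / 3 - c ≤ outdeg A v ∧ (n : ℝ) / 3 - c ≤ indeg A v) ∧
      (∀ v, 4 * (n : ℝ) / 15 < outdeg A v) ∧
      (∀ m : ℕ, ¬ ∃ e : V ≃ ZMod (3 * m + 1), ∀ x y, A x y ↔ circular m (e x) (e y)) ∧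
      ∃ f : U → V, Function.Injective f ∧ ∀ x y, A (f x) (f y) ↔ D x y := by
  classical
  obtain ⟨A, hHA, hA⟩ := exists_max (H_free hD)
  set M := Fintype.card (U ⊕ U × U) with hM
  have hM2 : c = M + 9 := by
    rw [hc, hM, Fintype.card_sum, Fintype.card_prod]
    ring
  clear_value M
  let e : (U ⊕ U × U) ≃ Fin M := Fintype.equivFinOfCardEq hM.symm
  let r : Fin 3 := ⟨(n - 1) % 3, Nat.mod_lt _ (by norm_num)⟩
  obtain ⟨k, hk⟩ : ∃ k, k = (n - 1) / 3 := ⟨_, rfl⟩
  have hr : r.val = (n - 1) % 3 := rfl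
  have hr2 : r.val < 3 := r.2
  have hn3 : n = 3 * k + 1 + r.val := by omega
  obtain ⟨b, hb⟩ : ∃ b, b = 8 - r.val + M := ⟨_, rfl⟩
  obtain ⟨t, ht⟩ : ∃ t, t = 3 * k + 1 - b := ⟨_, rfl⟩
  have hkb : b + 1 ≤ k := by omega
  let π : (U ⊕ U × U) ⊕ (Fin 4 × Bool) → ℕ := Sum.elim (fun w => 8 - r.val + (e w).val) (sp r)
  have S : Sys (circle A π k b t) (place π b t) k b := by
    refine circle_sys hA (by omega) hkb ht ?_ ?_ ?_
    · rintro (w | x)
      · have := (e w).2
        show 8 - r.val + (e w).val < b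
        omega
      · have := sp_lt r x
        show sp r x < b
        omega
    · intro p hp
      by_cases h : p < 8 - r.val
      · obtain ⟨x, hx⟩ := sp_surj r ⟨p, by omega⟩ h
        exact ⟨.inr x, hx⟩
      · refine ⟨.inl (e.symm ⟨p - (8 - r.val), by omega⟩), ?_⟩
        show 8 - r.val + (e (e.symm ⟨p - (8 - r.val), _⟩)).val = p
        rw [Equiv.apply_symm_apply]
        show 8 - r.val + (p - (8 - r.val)) = p
        omega
    · rintro (w | x) (w' | y) hne he
      · have h1 : 8 - r.val + (e w).val = 8 - r.val + (e w').val := he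
        have h2 : w = w' := e.injective (Fin.ext (by omega))
        exact absurd (congrArg Sum.inl h2) hne
      · have h1 : 8 - r.val + (e w).val = sp r y := he
        have h2 := sp_lt r y
        omega
      · have h1 : sp r x = 8 - r.val + (e w').val := he
        have h2 := sp_lt r x
        omega
      · have hne' : x ≠ y := fun h => hne (by rw [h])
        obtain ⟨h1, h2, h3⟩ := sp_fib r x y hne' he
        obtain ⟨x1, x2⟩ := x
        obtain ⟨y1, y2⟩ := y
        simp only at h2 h3
        subst h2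
        obtain ⟨s1, s2, s3, s4⟩ := sq (D := D) hHA x2
        have hno : ¬ A (.inr (3, x2)) (.inr (1, x2)) := fun h => hA.1.2.2 _ _ _ ⟨h, s2, s3⟩
        refine ⟨.inr (3, x2), h1, ?_⟩
        rcases h3 with ⟨rfl, rfl⟩ | ⟨rfl, rfl⟩
        · exact Or.inl ⟨s4, hno⟩
        · exact Or.inr (Or.inl ⟨s4, hno⟩)
  have hout : ∀ v, (n : ℝ) / 3 - c ≤ outdeg (circle A π k b t) v := by
    intro v
    have h := S.out_ge v
    have h' : n ≤ 3 * outdeg (circle A π k b t) v + 3 * c := by omega
    have h'' : (n : ℝ) ≤ 3 * outdeg (circle A π k b t) v + 3 * c := by exact_mod_cast h'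
    linarith
  have hin : ∀ v, (n : ℝ) / 3 - c ≤ indeg (circle A π k b t) v := by
    intro v
    have h := S.in_ge v
    have h' : n ≤ 3 * indeg (circle A π k b t) v + 3 * c := by omega
    have h'' : (n : ℝ) ≤ 3 * indeg (circle A π k b t) v + 3 * c := by exact_mod_cast h'
    linarith
  refine ⟨((U ⊕ U × U) ⊕ (Fin 4 × Bool)) ⊕ Fin t, inferInstance, circle A π k b t, ?_, S.maximal,
    S.nohom, fun v => ⟨hout v, hin v⟩, fun v => ?_, ?_, fun u => .inl (.inl (.inl u)), ?_, ?_⟩
  · rw [Fintype.card_sum, Fintype.card_sum, ← hM, Fintype.card_prod, Fintype.card_fin,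
      Fintype.card_fin, Fintype.card_bool]
    omega
  · have h := hout v
    have h2 : (15 : ℝ) * c < n := by exact_mod_cast hn
    linarith
  · rintro m ⟨f, hf⟩
    obtain ⟨s1, s2, s3, s4⟩ := sq (D := D) hHA false
    obtain ⟨o, ho⟩ := S.surj (3 * k) (by omega)
    have hall : ∀ x : Fin 4 × Bool, circle A π k b t o (.inl (.inr x)) := by
      intro x
      have h1 : place π b t (.inl (.inr x)) < b := by
        have := sp_lt r x
        show sp r x < b
        omega
      refine S.yes (Or.inl (by omega)) ?_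
      unfold Cl
      omega
    have h0 := (hf _ _).1 (hall (0, false))
    have h2 := (hf _ _).1 (hall (2, false))
    have hne : f (.inl (.inr (0, false))) ≠ f (.inl (.inr (2, false))) := by
      intro h
      have h3 := f.injective h
      simp at h3
    rcases circ_tri h0 h2 hne with h | h
    · have h3 : A (.inr (0, false)) (.inr (2, false)) := (hf _ _).2 h
      exact hA.1.2.2 _ _ _ ⟨h3, s3, s4⟩
    · have h3 : A (.inr (2, false)) (.inr (0, false)) := (hf _ _).2 h
      exact hA.1.2.2 _ _ _ ⟨h3, s1, s2⟩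
  · intro u v h
    simpa using h
  · intro u v
    exact restrict hA.1 hHA u v

end Pool.Agent.Results.MP_ba12ad_co.Universality
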